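import Mathlib

set_option autoImplicit false

namespace Pool.Agent.Results.MP_a9eae2_co.BalancedGDB

open Equiv.Perm

/-- The length-`l` substring of the cyclic sequence `a` that starts at position `i`
(indices are read modulo `n`). -/
def substr {A : Type*} {n : ℕ} (a : ZMod n → A) (l : ℕ) (i : ZMod n) : Fin l → A :=
  fun t => a (i + ((t : ℕ) : ZMod n))

/-- Every word of length `l` occurs at no more than `k` starting positions. -/
def IsGenDeBruijn {A : Type*} [DecidableEq A] {n : ℕ} [NeZero n] (a : ZMod n → A)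
    (l k : ℕ) : Prop :=
  ∀ w : Fin l → A, (Finset.univ.filter fun i : ZMod n => substr a l i = w).card ≤ k

/-- Every letter occurs exactly `n / |A|` times. -/
def IsBalanced {A : Type*} [Fintype A] [DecidableEq A] {n : ℕ} [NeZero n] (a : ZMod n → A) :
    Prop :=
  ∀ c : A, Fintype.card A * (Finset.univ.filter fun i : ZMod n => a i = c).card = n

theorem perm_ais {E : Type*} (τ : Equiv.Perm E) (x : E) : τ (τ⁻¹ x) = x := by
  rw [← Equiv.Perm.mul_apply, mul_inv_cancel]
  rfl

set_option linter.unusedSectionVars false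

section merge

variable {E : Type*} [Fintype E] [DecidableEq E]

theorem merge_aux (τ : Equiv.Perm E) (e e' : E) (h : ¬ SameCycle τ e e') (i : ℕ) :
    SameCycle (τ * Equiv.swap e e') e' ((τ ^ i) (τ e)) := by
  induction i with
  | zero =>
    have : (τ * Equiv.swap e e') e' = τ e := by simp
    rw [pow_zero, Equiv.Perm.one_apply, ← this]
    exact (sameCycle_apply_right).2 (SameCycle.refl _ _)
  | succ i ih =>
    have hO : SameCycle τ e ((τ ^ i) (τ e)) := by
      rw [sameCycle_pow_right, sameCycle_apply_right]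
    rw [pow_succ', Equiv.Perm.mul_apply]
    set y := (τ ^ i) (τ e) with hy
    by_cases hye : y = e
    · rw [hye]
      have : (τ * Equiv.swap e e') e' = τ e := by simp
      rw [← this]
      exact (sameCycle_apply_right).2 (SameCycle.refl _ _)
    · have hye' : y ≠ e' := by
        intro hh
        exact h (hh ▸ hO)
      have : (τ * Equiv.swap e e') y = τ y := by
        simp [Equiv.swap_apply_of_ne_of_ne hye hye']
      rw [← this]
      exact (sameCycle_apply_right).2 ih

theorem merge_all (τ : Equiv.Perm E) (e e' x : E) (h : ¬ SameCycle τ e e')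
    (hx : SameCycle τ e x) : SameCycle (τ * Equiv.swap e e') e' x := by
  obtain ⟨i, hi, _, hix⟩ := hx.exists_pow_eq''
  obtain ⟨j, rfl⟩ := Nat.exists_eq_succ_of_ne_zero (Nat.pos_iff_ne_zero.1 hi)
  rw [← hix, Nat.succ_eq_add_one, pow_succ, Equiv.Perm.mul_apply]
  exact merge_aux τ e e' h j

/-- the orbit of `e0` -/
def orb (τ : Equiv.Perm E) (e0 : E) : Finset E := Finset.univ.filter fun x => SameCycle τ e0 x

theorem orb_lt (τ : Equiv.Perm E) (e0 e e' : E) (he : SameCycle τ e0 e)
    (he' : ¬ SameCycle τ e0 e') :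
    (orb τ e0).card < (orb (τ * Equiv.swap e e') e0).card := by
  have h : ¬ SameCycle τ e e' := fun hh => he' (he.trans hh)
  have h0 : SameCycle (τ * Equiv.swap e e') e' e0 := merge_all τ e e' e0 h he.symm
  apply Finset.card_lt_card
  rw [Finset.ssubset_iff_of_subset]
  · refine ⟨e', ?_, ?_⟩
    · simp only [orb, Finset.mem_filter, Finset.mem_univ, true_and]
      exact h0.symm
    · simp only [orb, Finset.mem_filter, Finset.mem_univ, true_and]
      exact he'
  · intro x hx
    simp only [orb, Finset.mem_filter, Finset.mem_univ, true_and] at hx ⊢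
    exact h0.symm.trans (merge_all τ e e' x h (he.symm.trans hx))

end merge

section core

variable {m p : ℕ} {E : Type*} [Fintype E] [DecidableEq E]

/-- admissible transition permutations -/
def Adm (s : E → Fin (p + 1) → ZMod m) (k : ℕ) (τ : Equiv.Perm E) : Prop :=
  (∀ e, Fin.init (s (τ e)) = Fin.tail (s e)) ∧
  ∀ v w, (Finset.univ.filter fun e => s e = v ∧ s (τ e) = w).card ≤ k

theorem adm_same (s : E → Fin (p + 1) → ZMod m) (k : ℕ) (τ τ' : Equiv.Perm E)
    (h : ∀ x, s (τ' x) = s (τ x)) (ha : Adm s k τ) : Adm s k τ' := by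
  constructor
  · intro e
    rw [h e]
    exact ha.1 e
  · intro v w
    simp only [h]
    exact ha.2 v w

theorem exists_transitive (s : E → Fin (p + 1) → ZMod m) (hs : Function.Surjective s) (k : ℕ)
    (hk : 0 < k) (τ0 : Equiv.Perm E) (h0 : Adm s k τ0) (e0 : E) :
    ∃ τ, Adm s k τ ∧ ∀ x, SameCycle τ e0 x := by
  classical
  obtain ⟨τ, hτ, hmax⟩ := Finset.exists_max_image
    (Finset.univ.filter fun τ : Equiv.Perm E => Adm s k τ) (fun τ => (orb τ e0).card)
    ⟨τ0, by simp [h0]⟩
  simp only [Finset.mem_filter, Finset.mem_univ, true_and] at hτ hmax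
  refine ⟨τ, hτ, ?_⟩
  by_contra hne
  push Not at hne
  obtain ⟨x0, hx0⟩ := hne
  -- the orbit as a predicate
  set O : E → Prop := fun x => SameCycle τ e0 x with hOdef
  have hOτ : ∀ x, O (τ x) ↔ O x := fun x => sameCycle_apply_right
  have hOi : ∀ x, O (τ⁻¹ x) ↔ O x := fun x => by
    have := hOτ (τ⁻¹ x)
    rw [perm_ais] at this
    exact this.symm
  -- (B)
  have hB : ∀ e e', O e → ¬ O e' → s e ≠ s e' := by
    intro e e' he he' hse
    have hf : O (τ⁻¹ e) := (hOi e).2 he
    have hf' : ¬ O (τ⁻¹ e') := fun h => he' ((hOi e').1 h)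
    have hadm : Adm s k (τ * Equiv.swap (τ⁻¹ e) (τ⁻¹ e')) := by
      apply adm_same s k τ _ _ hτ
      intro x
      rw [Equiv.Perm.mul_apply]
      by_cases h1 : x = τ⁻¹ e
      · rw [h1, Equiv.swap_apply_left, perm_ais, perm_ais, hse]
      · by_cases h2 : x = τ⁻¹ e'
        · rw [h2, Equiv.swap_apply_right, perm_ais, perm_ais,
            hse]
        · rw [Equiv.swap_apply_of_ne_of_ne h1 h2]
    have h1 := hmax _ hadm
    have h2 := orb_lt τ e0 _ _ hf hf'
    omega
  -- same block pair
  have hpair : ∃ e e', O e ∧ ¬ O e' ∧ Fin.tail (s e) = Fin.tail (s e') := by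
    by_contra hcon
    push Not at hcon
    have hshift : ∀ e, O e → ∀ a, ∃ f, O f ∧ s f = Fin.snoc (Fin.tail (s e)) a := by
      intro e he a
      obtain ⟨f, hf⟩ := hs (Fin.snoc (Fin.tail (s e)) a)
      refine ⟨f, ?_, hf⟩
      by_contra hfO
      have h1 : ¬ O (τ⁻¹ f) := fun h => hfO ((hOi f).1 h)
      have h2 := hτ.1 (τ⁻¹ f)
      rw [perm_ais, hf, Fin.init_snoc] at h2
      exact hcon e (τ⁻¹ f) he h1 h2
    have hreach : ∀ w : Fin (p + 1) → ZMod m, ∀ i : ℕ, (hi : i ≤ p + 1) →
        ∃ f, O f ∧ ∀ j : ℕ, (hj : j < i) → s f ⟨p + 1 - i + j, by omega⟩ = w ⟨j, by omega⟩ := by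
      intro w i
      induction i with
      | zero =>
        intro _
        exact ⟨e0, SameCycle.refl _ _, fun j hj => by omega⟩
      | succ i ih =>
        intro hi
        obtain ⟨f, hf, hfw⟩ := ih (by omega)
        obtain ⟨g, hg, hgs⟩ := hshift f hf (w ⟨i, by omega⟩)
        refine ⟨g, hg, ?_⟩
        intro j hj
        rw [hgs]
        by_cases hji : j = i
        · subst hji
          have : (⟨p + 1 - (j + 1) + j, by omega⟩ : Fin (p + 1)) = Fin.last p := by
            apply Fin.ext
            simp only [Fin.val_last]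
            omega
          rw [this, Fin.snoc_last]
        · have hlt : p + 1 - (i + 1) + j < p := by omega
          have : (⟨p + 1 - (i + 1) + j, by omega⟩ : Fin (p + 1)) =
              Fin.castSucc ⟨p + 1 - (i + 1) + j, hlt⟩ := rfl
          rw [this, Fin.snoc_castSucc, ← hfw j (by omega), Fin.tail]
          congr 1
          apply Fin.ext
          simp only [Fin.val_succ]
          omega
    obtain ⟨f, hf, hfw⟩ := hreach (s x0) (p + 1) le_rfl
    apply hB f x0 hf hx0
    funext j
    have := hfw j.1 j.2
    simp only [Nat.sub_self, Nat.zero_add] at this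
    exact this
  obtain ⟨e, e', he, he', htail⟩ := hpair
  have hadm : Adm s k (τ * Equiv.swap e e') := by
    constructor
    · intro x
      rw [Equiv.Perm.mul_apply]
      by_cases h1 : x = e
      · rw [h1, Equiv.swap_apply_left, hτ.1 e', htail]
      · by_cases h2 : x = e'
        · rw [h2, Equiv.swap_apply_right, hτ.1 e, htail]
        · rw [Equiv.swap_apply_of_ne_of_ne h1 h2]
          exact hτ.1 x
    · intro v w
      by_cases hc1 : s e = v ∧ s (τ e') = w
      · -- only `e`
        have hsub : (Finset.univ.filter fun x => s x = v ∧ s ((τ * Equiv.swap e e') x) = w) ⊆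
            {e} := by
          intro x hx
          simp only [Finset.mem_filter, Finset.mem_univ, true_and] at hx
          rw [Finset.mem_singleton]
          by_contra hxe
          have hxO : O x := by
            by_contra hxO
            exact hB e x he hxO (hc1.1.trans hx.1.symm)
          have hxe' : x ≠ e' := fun h => he' (h ▸ hxO)
          have h3 := hx.2
          rw [Equiv.Perm.mul_apply, Equiv.swap_apply_of_ne_of_ne hxe hxe'] at h3
          exact hB (τ x) (τ e') ((hOτ x).2 hxO) (fun h => he' ((hOτ e').1 h))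
            (h3.trans hc1.2.symm)
        exact (Finset.card_le_card hsub).trans (by rw [Finset.card_singleton]; omega)
      · by_cases hc2 : s e' = v ∧ s (τ e) = w
        · have hsub : (Finset.univ.filter fun x => s x = v ∧
              s ((τ * Equiv.swap e e') x) = w) ⊆ {e'} := by
            intro x hx
            simp only [Finset.mem_filter, Finset.mem_univ, true_and] at hx
            rw [Finset.mem_singleton]
            by_contra hxe'
            have hxO : ¬ O x := by
              intro hxO
              exact hB x e' hxO he' (hx.1.trans hc2.1.symm)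
            have hxe : x ≠ e := fun h => hxO (h ▸ he)
            have h3 := hx.2
            rw [Equiv.Perm.mul_apply, Equiv.swap_apply_of_ne_of_ne hxe hxe'] at h3
            exact hB (τ e) (τ x) ((hOτ e).2 he) (fun h => hxO ((hOτ x).1 h))
              (hc2.2.trans h3.symm)
          exact (Finset.card_le_card hsub).trans (by rw [Finset.card_singleton]; omega)
        · refine (Finset.card_le_card ?_).trans (hτ.2 v w)
          intro x hx
          simp only [Finset.mem_filter, Finset.mem_univ, true_and] at hx ⊢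
          have h3 := hx.2
          rw [Equiv.Perm.mul_apply] at h3
          by_cases h1 : x = e
          · rw [h1, Equiv.swap_apply_left] at h3
            exact absurd ⟨h1 ▸ hx.1, h3⟩ hc1
          · by_cases h2 : x = e'
            · rw [h2, Equiv.swap_apply_right] at h3
              exact absurd ⟨h2 ▸ hx.1, h3⟩ hc2
            · rw [Equiv.swap_apply_of_ne_of_ne h1 h2] at h3
              exact ⟨hx.1, h3⟩
  have h1 := hmax _ hadm
  have h2 := orb_lt τ e0 _ _ he he'
  omega

end core


/-- abstract form of a balanced cyclic sequence (possibly empty) -/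
def Good (m l n k : ℕ) : Prop :=
  ∃ (E : Type) (_ : Fintype E) (_ : DecidableEq E) (σ : Equiv.Perm E) (a : E → ZMod m),
    Fintype.card E = n ∧ (∀ x y, SameCycle σ x y) ∧
    (∀ c, m * (Finset.univ.filter fun e => a e = c).card = n) ∧
    (∀ w : Fin l → ZMod m,
      (Finset.univ.filter fun e => (fun t : Fin l => a ((σ ^ (t : ℕ)) e)) = w).card ≤ k)

theorem exists_transitive_perm (E : Type) [Fintype E] [DecidableEq E] :
    ∃ σ : Equiv.Perm E, ∀ x y, SameCycle σ x y := by
  rcases Nat.eq_zero_or_pos (Fintype.card E) with h | h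
  · have : IsEmpty E := Fintype.card_eq_zero_iff.1 h
    exact ⟨1, fun x => (IsEmpty.false x).elim⟩
  · have : NeZero (Fintype.card E) := ⟨by omega⟩
    have e : E ≃ ZMod (Fintype.card E) := Fintype.equivOfCardEq (by rw [ZMod.card])
    refine ⟨(e.trans (Equiv.addRight 1)).trans e.symm, fun x y => ?_⟩
    refine ⟨((e y - e x).val : ℕ), ?_⟩
    have hp : ∀ j : ℕ, (((e.trans (Equiv.addRight 1)).trans e.symm) ^ j) x =
        e.symm (e x + j) := by
      intro j
      induction j with
      | zero => simp
      | succ j ih =>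
        rw [pow_succ', Equiv.Perm.mul_apply, ih]
        simp [add_assoc]
    rw [zpow_natCast, hp, ZMod.natCast_zmod_val]
    simp

theorem good_mono (m l n k k' : ℕ) (h : k ≤ k') (hg : Good m l n k) : Good m l n k' := by
  obtain ⟨E, i1, i2, σ, a, h1, h2, h3, h4⟩ := hg
  exact ⟨E, i1, i2, σ, a, h1, h2, h3, fun w => (h4 w).trans h⟩

theorem good_succ (m l n k : ℕ) (hg : Good m l n k) : Good m (l + 1) n k := by
  obtain ⟨E, i1, i2, σ, a, h1, h2, h3, h4⟩ := hg
  refine ⟨E, i1, i2, σ, a, h1, h2, h3, fun w => ?_⟩
  refine (Finset.card_le_card ?_).trans (h4 (fun t => w t.castSucc))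
  intro e he
  simp only [Finset.mem_filter, Finset.mem_univ, true_and] at he ⊢
  rw [← he]
  rfl

theorem good_zero (m l k : ℕ) : Good m l 0 k := by
  refine ⟨Fin 0, inferInstance, inferInstance, 1, fun e => e.elim0, by simp,
    fun x => x.elim0, fun c => ?_, fun w => ?_⟩
  · simp
  · simp

theorem good_one (m n k : ℕ) [NeZero m] (hm : m ∣ n) (hn : n ≤ k * m) : Good m 1 n k := by
  obtain ⟨r, rfl⟩ := hm
  have hm0 : 0 < m := Nat.pos_of_ne_zero (NeZero.ne m)
  have hr : r ≤ k := by
    rw [mul_comm m r] at hn
    exact Nat.le_of_mul_le_mul_right hn hm0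
  obtain ⟨σ, hσ⟩ := exists_transitive_perm (ZMod m × Fin r)
  have hcard : ∀ c : ZMod m,
      (Finset.univ.filter fun e : ZMod m × Fin r => e.1 = c).card = r := by
    intro c
    have : (Finset.univ.filter fun e : ZMod m × Fin r => e.1 = c) =
        ({c} : Finset (ZMod m)) ×ˢ (Finset.univ : Finset (Fin r)) := by
      ext ⟨x, y⟩
      simp [eq_comm]
    rw [this, Finset.card_product]
    simp
  refine ⟨ZMod m × Fin r, inferInstance, inferInstance, σ, fun e => e.1, ?_, hσ, ?_, ?_⟩
  · rw [Fintype.card_prod, ZMod.card, Fintype.card_fin]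
  · intro c
    rw [hcard c]
  · intro w
    refine (Finset.card_le_card ?_).trans ((hcard (w 0)).le.trans hr)
    intro e he
    simp only [Finset.mem_filter, Finset.mem_univ, true_and] at he ⊢
    rw [← he]
    simp

/-- from a transitive admissible permutation to a cyclic sequence -/
theorem good_of_adm (m p k n : ℕ) (E : Type) [Fintype E] [DecidableEq E]
    (s : E → Fin (p + 1) → ZMod m) (τ : Equiv.Perm E) (hτ : Adm s k τ)
    (htr : ∀ x y, SameCycle τ x y) (hcard : Fintype.card E = n)
    (hbal : ∀ c, m * (Finset.univ.filter fun e => s e 0 = c).card = n) :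
    Good m (p + 2) n k := by
  refine ⟨E, inferInstance, inferInstance, τ, fun e => s e 0, hcard, htr, hbal, ?_⟩
  have hs : ∀ (j : ℕ) (e : E) (i : ℕ) (h : i + j < p + 1),
      s ((τ ^ j) e) ⟨i, by omega⟩ = s e ⟨i + j, h⟩ := by
    intro j
    induction j with
    | zero => intro e i h; rfl
    | succ j ih =>
      intro e i h
      rw [pow_succ', Equiv.Perm.mul_apply]
      have h1 := congrFun (hτ.1 ((τ ^ j) e)) ⟨i, by omega⟩
      have h2 := ih e (i + 1) (by omega)
      simp only [Fin.init, Fin.tail] at h1
      have e1 : (Fin.castSucc (⟨i, by omega⟩ : Fin p)) = (⟨i, by omega⟩ : Fin (p + 1)) := rfl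
      have e2 : (Fin.succ (⟨i, by omega⟩ : Fin p)) = (⟨i + 1, by omega⟩ : Fin (p + 1)) := rfl
      rw [e1, e2, h2] at h1
      rw [h1]
      congr 1
      apply Fin.ext
      show i + 1 + j = i + (j + 1)
      omega
  intro w
  refine (Finset.card_le_card ?_).trans (hτ.2 (Fin.init w) (Fin.tail w))
  intro e he
  simp only [Finset.mem_filter, Finset.mem_univ, true_and] at he ⊢
  constructor
  · funext i
    have h1 := congrFun he i.castSucc
    simp only [Fin.init, Fin.val_castSucc] at h1 ⊢
    rw [← h1]
    have h2 := hs i.1 e 0 (by have := i.2; omega)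
    have e0 : (⟨0, by omega⟩ : Fin (p + 1)) = 0 := rfl
    rw [e0] at h2
    rw [h2]
    congr 1
    apply Fin.ext
    show i.1 = 0 + i.1
    omega
  · funext i
    have h1 := congrFun he i.succ
    simp only [Fin.tail, Fin.val_succ] at h1 ⊢
    rw [← h1, pow_succ, Equiv.Perm.mul_apply]
    have h2 := hs i.1 (τ e) 0 (by have := i.2; omega)
    have e0 : (⟨0, by omega⟩ : Fin (p + 1)) = 0 := rfl
    rw [e0] at h2
    rw [h2]
    congr 1
    apply Fin.ext
    show i.1 = 0 + i.1
    omega

/-- extending a partial system of transitions to a system of permutations -/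
theorem exists_ext (m p : ℕ) [NeZero m] (Z : Type) [Fintype Z] (σ0 : Equiv.Perm Z)
    (cv : Z → Fin (p + 1) → ZMod m) (hinj : Function.Injective cv)
    (hcv : ∀ z, Fin.init (cv (σ0 z)) = Fin.tail (cv z)) :
    ∃ π : (Fin p → ZMod m) → Equiv.Perm (ZMod m),
      ∀ z, π (Fin.tail (cv z)) (cv z 0) = cv (σ0 z) (Fin.last p) := by
  classical
  have key : ∀ y : Fin p → ZMod m, ∃ π : Equiv.Perm (ZMod m), ∀ z, Fin.tail (cv z) = y →
      π (cv z 0) = cv (σ0 z) (Fin.last p) := by
    intro y
    let S : ZMod m → Prop := fun x => ∃ z, cv z = Fin.cons x y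
    let g : {x // S x} → ZMod m := fun x => cv (σ0 x.2.choose) (Fin.last p)
    have hg : Function.Injective g := by
      intro x x' hxx
      have hz := x.2.choose_spec
      have hz' := x'.2.choose_spec
      have h1 : cv (σ0 x.2.choose) = cv (σ0 x'.2.choose) := by
        rw [← Fin.snoc_init_self (cv (σ0 x.2.choose)), ← Fin.snoc_init_self (cv (σ0 x'.2.choose))]
        rw [hcv, hcv]
        have e1 : Fin.tail (cv x.2.choose) = y := by rw [hz, Fin.tail_cons]
        have e2 : Fin.tail (cv x'.2.choose) = y := by rw [hz', Fin.tail_cons]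
        rw [e1, e2]
        congr 1
      have h2 := σ0.injective (hinj h1)
      rw [h2] at hz
      rw [hz] at hz'
      have := congrFun hz' 0
      rw [Fin.cons_zero, Fin.cons_zero] at this
      exact Subtype.ext this
    refine ⟨(Equiv.ofInjective g hg).extendSubtype, ?_⟩
    intro z hz
    have hS : S (cv z 0) := ⟨z, by rw [← hz, Fin.cons_self_tail]⟩
    rw [Equiv.extendSubtype_apply_of_mem _ _ hS]
    show g ⟨cv z 0, hS⟩ = _
    have hc := hS.choose_spec
    have : hS.choose = z := by
      apply hinj
      rw [hc, ← hz, Fin.cons_self_tail]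
    show cv (σ0 hS.choose) (Fin.last p) = _
    rw [this]
  choose π hπ using key
  exact ⟨π, fun z => hπ _ z rfl⟩


/-- classes of the factors -/
def cls (m k : ℕ) (i : ℕ) : ZMod m := ((i / k : ℕ) : ZMod m) + 1

theorem cls_inj (m k q : ℕ) (hq : q ≤ k * m) (i j : ℕ) (hi : i < q)
    (hj : j < q) (h : cls m k i = cls m k j) : i / k = j / k := by
  unfold cls at h
  have h1 : ((i / k : ℕ) : ZMod m) = ((j / k : ℕ) : ZMod m) := add_right_cancel h
  rw [ZMod.natCast_eq_natCast_iff] at h1
  have hi' : i / k < m := Nat.div_lt_of_lt_mul (by omega)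
  have hj' : j / k < m := Nat.div_lt_of_lt_mul (by omega)
  exact Nat.ModEq.eq_of_lt_of_lt h1 hi' hj'

theorem cls_card (m k q : ℕ) (hk : 0 < k) (hq : q ≤ k * m) (c : ZMod m) :
    (Finset.univ.filter fun i : Fin q => cls m k i = c).card ≤ k := by
  have : (Finset.univ.filter fun i : Fin q => cls m k i = c).card ≤ (Finset.range k).card := by
    apply Finset.card_le_card_of_injOn (fun i : Fin q => (i : ℕ) % k)
    · intro i _
      simp only [Finset.coe_range, Set.mem_Iio]
      exact Nat.mod_lt _ hk
    · intro i hi j hj hij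
      simp only [Finset.coe_filter, Finset.mem_univ, true_and, Set.mem_ofPred_eq] at hi hj
      have h1 := cls_inj m k q hq i j i.2 j.2 (hi.trans hj.symm)
      have h2 : (i : ℕ) % k = (j : ℕ) % k := hij
      apply Fin.ext
      rw [← Nat.div_add_mod (i : ℕ) k, ← Nat.div_add_mod (j : ℕ) k, h1, h2]
  rwa [Finset.card_range] at this

theorem cls_card_zero (m k q : ℕ) (hk : 0 < k) (hq : q < k * m) :
    (Finset.univ.filter fun i : Fin q => cls m k i = 0).card + 1 ≤ k := by
  have : (Finset.univ.filter fun i : Fin q => cls m k i = 0).card ≤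
      (Finset.range (k - 1)).card := by
    apply Finset.card_le_card_of_injOn (fun i : Fin q => (i : ℕ) % k)
    · intro i hi
      simp only [Finset.coe_filter, Finset.mem_univ, true_and, Set.mem_ofPred_eq] at hi
      simp only [Finset.coe_range, Set.mem_Iio]
      unfold cls at hi
      have h1 : (((i : ℕ) / k + 1 : ℕ) : ZMod m) = 0 := by push_cast; exact hi
      rw [ZMod.natCast_eq_zero_iff] at h1
      have h2 : (i : ℕ) / k < m := Nat.div_lt_of_lt_mul (by have := i.2; omega)
      have h3 := Nat.le_of_dvd (Nat.succ_pos _) h1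
      have h4 : (i : ℕ) / k + 1 = m := by omega
      have h5 := Nat.div_add_mod (i : ℕ) k
      have h6 := i.2
      have h7 : k * m = k * ((i : ℕ) / k) + k := by rw [← h4]; ring
      omega
    · intro i hi j hj hij
      simp only [Finset.coe_filter, Finset.mem_univ, true_and, Set.mem_ofPred_eq] at hi hj
      have h1 := cls_inj m k q hq.le i j i.2 j.2 (hi.trans hj.symm)
      have h2 : (i : ℕ) % k = (j : ℕ) % k := hij
      apply Fin.ext
      rw [← Nat.div_add_mod (i : ℕ) k, ← Nat.div_add_mod (j : ℕ) k, h1, h2]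
  rw [Finset.card_range] at this
  omega

theorem card_first (m p : ℕ) [NeZero m] (c : ZMod m) :
    (Finset.univ.filter fun v : Fin (p + 1) → ZMod m => v 0 = c).card = m ^ p := by
  classical
  have : (Finset.univ.filter fun v : Fin (p + 1) → ZMod m => v 0 = c) =
      (Finset.univ : Finset (Fin p → ZMod m)).image
        (fun y => (Fin.cons c y : Fin (p + 1) → ZMod m)) := by
    ext v
    simp only [Finset.mem_filter, Finset.mem_univ, true_and, Finset.mem_image]
    constructor
    · intro h
      exact ⟨Fin.tail v, by rw [← h, Fin.cons_self_tail]⟩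
    · rintro ⟨y, rfl⟩
      rw [Fin.cons_zero]
  rw [this, Finset.card_image_of_injective]
  · rw [Finset.card_univ, Fintype.card_fun, ZMod.card, Fintype.card_fin]
  · intro y y' h
    have := congrArg Fin.tail h
    rwa [Fin.tail_cons, Fin.tail_cons] at this

theorem card_filter_sum {X Z : Type} [Fintype X] [Fintype Z] (P : X ⊕ Z → Prop)
    [DecidablePred P] : (Finset.univ.filter P).card =
      (Finset.univ.filter fun x => P (Sum.inl x)).card +
        (Finset.univ.filter fun z => P (Sum.inr z)).card := by
  simp only [Finset.card_filter]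
  rw [Fintype.sum_sum_type]

theorem good_step (m p n k : ℕ) [NeZero m] (hm : m ∣ n) (hk : 0 < k) (hn : n ≤ k * m ^ (p + 2))
    (IH : ∀ n', m ∣ n' → n' ≤ m ^ (p + 1) → Good m (p + 1) n' 1) : Good m (p + 2) n k := by
  classical
  set N := m ^ (p + 1) with hN
  have hm0 : 0 < m := Nat.pos_of_ne_zero (NeZero.ne m)
  have hNpos : 0 < N := by rw [hN]; positivity
  have hmN : m ∣ N := by rw [hN, pow_succ]; exact Dvd.intro_left _ rfl
  set q := n / N with hq
  set j0 := n % N with hj0
  have hnq : N * q + j0 = n := Nat.div_add_mod n N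
  have hj0m : m ∣ j0 := (Nat.dvd_mod_iff hmN).2 hm
  have hj0N : j0 < N := Nat.mod_lt _ hNpos
  have hgood := IH j0 hj0m hj0N.le
  rcases Nat.eq_zero_or_pos q with hq0 | hqpos
  · have : n = j0 := by rw [hq0] at hnq; omega
    rw [this]
    exact good_succ _ _ _ _ (good_mono _ _ _ _ _ hk hgood)
  obtain ⟨Z, iZ, iZ', σ0, a0, hcardZ, htrZ, hbalZ, hcntZ⟩ := hgood
  let cv : Z → Fin (p + 1) → ZMod m := fun z t => a0 ((σ0 ^ (t : ℕ)) z)
  have hinj : Function.Injective cv := by
    intro z z' h
    have h1 := hcntZ (cv z)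
    rw [Finset.card_le_one] at h1
    exact h1 z (by simp only [Finset.mem_filter, Finset.mem_univ, true_and]; rfl) z'
      (by simp only [Finset.mem_filter, Finset.mem_univ, true_and]; exact h.symm)
  have hcv : ∀ z, Fin.init (cv (σ0 z)) = Fin.tail (cv z) := by
    intro z
    funext t
    show a0 ((σ0 ^ (t.castSucc : ℕ)) (σ0 z)) = a0 ((σ0 ^ (t.succ : ℕ)) z)
    rw [Fin.val_succ, Fin.val_castSucc, pow_succ, Equiv.Perm.mul_apply]
  obtain ⟨π, hπ⟩ := exists_ext m p Z σ0 cv hinj hcv
  let F : ZMod m → (Fin (p + 1) → ZMod m) → (Fin (p + 1) → ZMod m) := fun c v =>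
    (Fin.snoc (Fin.tail v) (π (Fin.tail v) (v 0) + c) : Fin (p + 1) → ZMod m)
  have hFinit : ∀ c v, Fin.init (F c v) = Fin.tail v := fun c v => by
    show Fin.init (Fin.snoc (Fin.tail v) _ : Fin (p + 1) → ZMod m) = _
    rw [Fin.init_snoc]
  have hFlast : ∀ c v, F c v (Fin.last p) = π (Fin.tail v) (v 0) + c := fun c v => by
    show (Fin.snoc (Fin.tail v) _ : Fin (p + 1) → ZMod m) (Fin.last p) = _
    rw [Fin.snoc_last]
  have hFinj : ∀ c, Function.Injective (F c) := by
    intro c v v' h
    have h1 : Fin.tail v = Fin.tail v' := by rw [← hFinit c v, ← hFinit c v', h]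
    have h2 : π (Fin.tail v) (v 0) + c = π (Fin.tail v') (v' 0) + c := by
      rw [← hFlast, ← hFlast, h]
    rw [h1] at h2
    have h3 := (π (Fin.tail v')).injective (add_right_cancel h2)
    rw [← Fin.cons_self_tail v, ← Fin.cons_self_tail v', h1, h3]
  let V := Fin (p + 1) → ZMod m
  let E := (Fin q × V) ⊕ Z
  let s : E → V := Sum.elim (fun x => x.2) cv
  let f : E → E := Sum.map (fun x => (x.1, F (cls m k x.1) x.2)) σ0
  have hf : Function.Injective f := by
    apply Function.Injective.sumMap
    · rintro ⟨i, v⟩ ⟨j, w⟩ h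
      simp only [Prod.mk.injEq] at h
      obtain ⟨h1, h2⟩ := h
      subst h1
      rw [hFinj _ h2]
    · exact σ0.injective
  let τ0 : Equiv.Perm E := Equiv.ofBijective f (Finite.injective_iff_bijective.1 hf)
  have hτl : ∀ i v, s (τ0 (Sum.inl (i, v))) = F (cls m k i) v := fun i v => rfl
  have hτr : ∀ z, s (τ0 (Sum.inr z)) = cv (σ0 z) := fun z => rfl
  have hsl : ∀ i v, s (Sum.inl (i, v)) = v := fun i v => rfl
  have hsr : ∀ z, s (Sum.inr z) = cv z := fun z => rfl
  have hqk : q ≤ k * m := by
    have h1 : N * q ≤ N * (k * m) := by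
      calc N * q ≤ n := by omega
        _ ≤ k * m ^ (p + 2) := hn
        _ = N * (k * m) := by rw [hN]; ring
    exact Nat.le_of_mul_le_mul_left h1 hNpos
  have hadm : Adm s k τ0 := by
    constructor
    · rintro (⟨i, v⟩ | z)
      · rw [hτl, hsl, hFinit]
      · rw [hτr, hsr, hcv]
    · intro v w
      set c0 : ZMod m := w (Fin.last p) - π (Fin.tail v) (v 0) with hc0
      have hsub : (Finset.univ.filter fun e : E => s e = v ∧ s (τ0 e) = w) ⊆
          ((Finset.univ.filter fun i : Fin q => cls m k i = c0).image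
            (fun i => (Sum.inl (i, v) : E))) ∪
          ((Finset.univ.filter fun z : Z => cv z = v ∧ cv (σ0 z) = w).image
            (fun z => (Sum.inr z : E))) := by
        rintro (⟨i, v'⟩ | z) he
        · simp only [Finset.mem_filter, Finset.mem_univ, true_and, hsl, hτl] at he
          obtain ⟨he1, he2⟩ := he
          subst he1
          rw [Finset.mem_union, Finset.mem_image]
          left
          refine ⟨i, ?_, rfl⟩
          simp only [Finset.mem_filter, Finset.mem_univ, true_and]
          rw [hc0, ← he2, hFlast]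
          ring
        · simp only [Finset.mem_filter, Finset.mem_univ, true_and, hsr, hτr] at he
          rw [Finset.mem_union, Finset.mem_image, Finset.mem_image]
          right
          exact ⟨z, by simp only [Finset.mem_filter, Finset.mem_univ, true_and]; exact he, rfl⟩
      have h1 := (Finset.card_le_card hsub).trans (Finset.card_union_le _ _)
      have h2 := Finset.card_image_le (s := Finset.univ.filter fun i : Fin q => cls m k i = c0)
        (f := fun i => (Sum.inl (i, v) : E))
      have h3 := Finset.card_image_le (s := Finset.univ.filter fun z : Z => cv z = v ∧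
        cv (σ0 z) = w) (f := fun z => (Sum.inr z : E))
      rcases Finset.eq_empty_or_nonempty
        (Finset.univ.filter fun z : Z => cv z = v ∧ cv (σ0 z) = w) with hem | ⟨z, hz⟩
      · have h5 : (Finset.univ.filter fun z : Z => cv z = v ∧ cv (σ0 z) = w).card = 0 := by
          rw [hem, Finset.card_empty]
        have h4 := cls_card m k q hk hqk c0
        exact (h1.trans (Nat.add_le_add h2 (h3.trans h5.le))).trans h4
      · have hone : (Finset.univ.filter fun z : Z => cv z = v ∧ cv (σ0 z) = w).card ≤ 1 := by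
          rw [Finset.card_le_one]
          intro x hx y hy
          simp only [Finset.mem_filter, Finset.mem_univ, true_and] at hx hy
          exact hinj (hx.1.trans hy.1.symm)
        simp only [Finset.mem_filter, Finset.mem_univ, true_and] at hz
        have hc00 : c0 = 0 := by
          rw [hc0, ← hz.1, ← hz.2, hπ z, sub_self]
        have hj0pos : 0 < j0 := by
          rw [← hcardZ]
          exact Fintype.card_pos_iff.2 ⟨z⟩
        have hqlt : q < k * m := by
          have h1 : N * q < N * (k * m) := by
            calc N * q < n := by omega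
              _ ≤ k * m ^ (p + 2) := hn
              _ = N * (k * m) := by rw [hN]; ring
          exact Nat.lt_of_mul_lt_mul_left h1
        have h4 : (Finset.univ.filter fun i : Fin q => cls m k i = c0).card + 1 ≤ k := by
          rw [hc00]
          exact cls_card_zero m k q hk hqlt
        have h5 := h3.trans hone
        exact (h1.trans (Nat.add_le_add h2 h5)).trans h4
  have hsurj : Function.Surjective s := fun v => ⟨Sum.inl (⟨0, hqpos⟩, v), rfl⟩
  obtain ⟨τ, hτ, htr⟩ := exists_transitive s hsurj k hk τ0 hadm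
    (Sum.inl (⟨0, hqpos⟩, fun _ => 0))
  refine good_of_adm m p k n E s τ hτ (fun x y => (htr x).symm.trans (htr y)) ?_ ?_
  · show Fintype.card ((Fin q × V) ⊕ Z) = n
    rw [Fintype.card_sum, Fintype.card_prod, Fintype.card_fin, hcardZ]
    show q * Fintype.card (Fin (p + 1) → ZMod m) + j0 = n
    rw [Fintype.card_fun, ZMod.card, Fintype.card_fin, ← hN, mul_comm]
    exact hnq
  · intro c
    have hcard : (Finset.univ.filter fun e : E => s e 0 = c).card =
        q * m ^ p + (Finset.univ.filter fun z : Z => a0 z = c).card := by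
      rw [card_filter_sum]
      congr 1
      have hpr : (Finset.univ.filter fun x : Fin q × V => s (Sum.inl x) 0 = c) =
          (Finset.univ : Finset (Fin q)) ×ˢ (Finset.univ.filter fun v : V => v 0 = c) := by
        ext ⟨i, v⟩
        simp only [Finset.mem_filter, Finset.mem_univ, true_and, Finset.mem_product]
        exact Iff.rfl
      rw [hpr, Finset.card_product, Finset.card_univ, Fintype.card_fin, card_first]
    rw [hcard, mul_add, hbalZ c]
    calc m * (q * m ^ p) + j0 = N * q + j0 := by rw [hN]; ring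
      _ = n := hnq

theorem good_all (m : ℕ) [NeZero m] (p : ℕ) : ∀ n k, m ∣ n → n ≤ k * m ^ (p + 1) →
    Good m (p + 1) n k := by
  induction p with
  | zero =>
    intro n k hm hn
    exact good_one m n k hm (by simpa using hn)
  | succ p ih =>
    intro n k hm hn
    rcases Nat.eq_zero_or_pos k with hk | hk
    · subst hk
      have : n = 0 := by omega
      rw [this]
      exact good_zero _ _ _
    · exact good_step m p n k hm hk hn (fun n' h1 h2 => ih n' 1 h1 (by omega))

theorem good_to_seq (m l n k : ℕ) [NeZero m] [NeZero n] (hg : Good m l n k) :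
    ∃ a : ZMod n → ZMod m, IsBalanced a ∧ IsGenDeBruijn a l k := by
  obtain ⟨E, i1, i2, σ, a, hcard, htr, hbal, hcnt⟩ := hg
  have hn0 : 0 < n := Nat.pos_of_ne_zero (NeZero.ne n)
  have hne : Nonempty E := Fintype.card_pos_iff.1 (by rw [hcard]; exact hn0)
  obtain ⟨e0⟩ := hne
  have hon : IsCycleOn σ ((Finset.univ : Finset E) : Set E) := by
    rw [Finset.coe_univ]
    exact ⟨σ.bijective.bijOn_univ, fun x _ y _ => htr x y⟩
  have hcu : (Finset.univ : Finset E).card = n := by rw [Finset.card_univ, hcard]
  let ψ : ZMod n → E := fun i => (σ ^ i.val) e0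
  have hstep : ∀ (i : ZMod n) (t : ℕ), ψ (i + (t : ZMod n)) = (σ ^ t) (ψ i) := by
    intro i t
    show (σ ^ (i + (t : ZMod n)).val) e0 = (σ ^ t) ((σ ^ i.val) e0)
    rw [← Equiv.Perm.mul_apply, ← pow_add]
    rw [hon.pow_apply_eq_pow_apply (Finset.mem_univ e0), hcu]
    rw [ZMod.val_add, ZMod.val_natCast]
    unfold Nat.ModEq
    rw [Nat.mod_mod, Nat.add_mod_mod, add_comm]
  have hsurj : Function.Surjective ψ := by
    intro y
    obtain ⟨i, hi, hiy⟩ := hon.exists_pow_eq (Finset.mem_univ e0) (Finset.mem_univ y)
    rw [hcu] at hi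
    refine ⟨(i : ZMod n), ?_⟩
    show (σ ^ ((i : ZMod n)).val) e0 = y
    rw [ZMod.val_natCast, Nat.mod_eq_of_lt hi]
    exact hiy
  have hbij : Function.Bijective ψ := by
    rw [Fintype.bijective_iff_surjective_and_card]
    exact ⟨hsurj, by rw [ZMod.card, hcard]⟩
  refine ⟨fun i => a (ψ i), ?_, ?_⟩
  · intro c
    rw [ZMod.card]
    refine Eq.trans ?_ (hbal c)
    congr 1
    apply Finset.card_bij (fun i _ => ψ i)
    · intro i hi
      simpa using hi
    · intro i _ j _ h
      exact hbij.1 h
    · intro e he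
      obtain ⟨i, rfl⟩ := hsurj e
      exact ⟨i, by simpa using he, rfl⟩
  · intro w
    refine le_trans ?_ (hcnt w)
    apply Finset.card_le_card_of_injOn ψ
    · intro i hi
      simp only [Finset.coe_filter, Finset.mem_univ, true_and, Set.mem_ofPred_eq] at hi ⊢
      rw [← hi]
      funext t
      show a ((σ ^ (t : ℕ)) (ψ i)) = a (ψ (i + ((t : ℕ) : ZMod n)))
      rw [hstep]
    · intro i _ j _ h
      exact hbij.1 h

/-- **Balanced generalized de Bruijn sequences over an arbitrary finite alphabet.** -/
theorem result (A : Type*) [Fintype A] [DecidableEq A] [Nonempty A] (n l k : ℕ) [NeZero n]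
    (hl : 0 < l) :
    (∃ a : ZMod n → A, IsBalanced a ∧ IsGenDeBruijn a l k) ↔
      Fintype.card A ∣ n ∧ n ≤ k * Fintype.card A ^ l := by
  constructor
  · rintro ⟨a, hb, hg⟩
    obtain ⟨c⟩ := ‹Nonempty A›
    refine ⟨Dvd.intro _ (hb c), ?_⟩
    have h1 : n = ∑ w : Fin l → A, (Finset.univ.filter fun i : ZMod n => substr a l i = w).card := by
      rw [← Finset.card_eq_sum_card_fiberwise (f := fun i : ZMod n => substr a l i)
        (s := Finset.univ) (t := Finset.univ) (fun _ _ => Finset.mem_univ _)]
      rw [Finset.card_univ, ZMod.card]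
    have h2 : ∑ w : Fin l → A, (Finset.univ.filter fun i : ZMod n => substr a l i = w).card ≤
        ∑ w : Fin l → A, k := Finset.sum_le_sum fun w _ => hg w
    rw [Finset.sum_const, Finset.card_univ, Fintype.card_fun, Fintype.card_fin,
      smul_eq_mul, mul_comm] at h2
    omega
  · rintro ⟨hm, hn⟩
    have : NeZero (Fintype.card A) := ⟨Fintype.card_ne_zero⟩
    obtain ⟨p, rfl⟩ := Nat.exists_eq_succ_of_ne_zero (Nat.pos_iff_ne_zero.1 hl)
    obtain ⟨a, hb, hg⟩ := good_to_seq (Fintype.card A) (p + 1) n k
      (good_all (Fintype.card A) p n k hm hn)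
    have e : ZMod (Fintype.card A) ≃ A := Fintype.equivOfCardEq (by rw [ZMod.card])
    refine ⟨fun i => e (a i), ?_, ?_⟩
    · intro c
      have h1 := hb (e.symm c)
      rw [ZMod.card] at h1
      refine Eq.trans ?_ h1
      congr 2
      ext i
      simp only [Finset.mem_filter, Finset.mem_univ, true_and]
      exact (Equiv.eq_symm_apply e).symm
    · intro w
      refine le_trans (Finset.card_le_card ?_) (hg (fun t => e.symm (w t)))
      intro i hi
      simp only [Finset.mem_filter, Finset.mem_univ, true_and] at hi ⊢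
      rw [← hi]
      funext t
      show a _ = e.symm (e (a _))
      rw [Equiv.symm_apply_apply]

end Pool.Agent.Results.MP_a9eae2_co.BalancedGDB
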